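import Pool.Agent.R590.KsTree

/-!
# The continuum hypothesis with Kurepa trees and without strong Kurepa trees

The positive answer to the question has three parts, and no hypothesis is assumed.

* There is a forcing notion all of whose conditions force `Hypothesis`. The forcing language is
  the one of `Pool.Agent.Helper669.Forcing`: a sentence is the set of the conditions which force
  it; `HypothesisN P` is the translation of the proposition `Hypothesis` into the forcing
  language (quantifiers over relations and functions become quantifiers over names).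
* `Hypothesis` says that the continuum hypothesis holds, that there is a family of more than `ℵ₁`
  many subsets of `ω₁` which has countably many traces on every countable ordinal, and that every
  family of functions `π α β : ℕ → ℕ` (`α < β < ω₁`) has fewer than `2 ^ ℵ₁` many threads.
* `Hypothesis` implies that the continuum hypothesis holds, that there is a Kurepa tree, that
  every `ω₁`-tree has fewer than `2 ^ ℵ₁` cofinal branches, and that no Kurepa tree is strong.
-/

set_option autoImplicit false

namespace Pool.Agent.Results.MP_0f79e1_lc.NoStrongKurepa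

open Cardinal Set Pool.Agent.R590.Kst

theorem result :
    -- the hypothesis can be forced over every ground model
    (∃ (P : Type) (_ : Preorder P), Nonempty P ∧ ∀ p : P, p ∈ HypothesisN P) ∧
    -- the meaning of the hypothesis
    (Hypothesis ↔ (2 : Cardinal.{0}) ^ (ℵ₀ : Cardinal.{0}) = ℵ₁ ∧
      (∃ (U : Type) (u : U → Set (ℵ₁ : Cardinal.{0}).ord.ToType),
        Function.Injective u ∧ ℵ₁ < #U ∧ ∀ j, (range fun s => u s ∩ Iio j).Countable) ∧
      ∀ π : (ℵ₁ : Cardinal.{0}).ord.ToType → (ℵ₁ : Cardinal.{0}).ord.ToType → ℕ → ℕ,
        #{f : (ℵ₁ : Cardinal.{0}).ord.ToType → ℕ // ∀ α β, α < β → π α β (f β) = f α} <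
          2 ^ (ℵ₁ : Cardinal.{0})) ∧
    -- the hypothesis gives a positive answer
    (Hypothesis → (2 : Cardinal.{0}) ^ (ℵ₀ : Cardinal.{0}) = ℵ₁ ∧
      (∃ (T : Type) (_ : PartialOrder T), IsKurepa T) ∧
      (∀ (T : Type) (_ : PartialOrder T), IsOmegaOneTree T →
        #(Branch T) < 2 ^ (ℵ₁ : Cardinal.{0})) ∧
      ∀ (T : Type) (_ : PartialOrder T), IsKurepa T → ¬ IsStrong T) := by
  refine ⟨exists_forcing, hypothesis_iff, fun h => ?_⟩
  obtain ⟨h1, h2, h3⟩ := consequence h
  refine ⟨h1, h2, fun T _ hT => ?_, fun T _ hT => ?_⟩
  · by_contra hcon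
    have h4 : #Two ≤ #(Branch T) := by
      rw [mk_Two]
      exact not_lt.1 hcon
    obtain ⟨g⟩ := h4
    have hne : Nonempty Two := ⟨fun _ => true⟩
    exact h3 T _ hT ⟨Function.invFun g, Function.invFun_surjective g.injective⟩
  · rintro ⟨f, -, hf⟩
    exact h3 T _ hT.1 ⟨f, hf⟩

end Pool.Agent.Results.MP_0f79e1_lc.NoStrongKurepa
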